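import Mathlib
import Pool.Agent.Lib.QU54.BlowT
import Pool.Agent.Lib.QU54.ApB

/-!
# Quillen's question in dimension four: dilatations and blow-ups

In dimension four, start with `(L⟦v⟧, y)`, `L` a complete regular local ring of dimension three (of
any characteristic, ramified or not) and `y` a regular parameter of `L`, and form successively, `m`
the maximal ideal of the ring `D` already obtained,
* the dilatations `D⟦c⟧/(γ - c y ^ e)`, `e ≥ 1`, `γ` an element of `m` outside `m ^ 2 + (y)`;
* the rings `D⟦c⟧/(γ - c α)`, `α` an element of `m` outside `m ^ 2 + (y)`, `γ` an element of `m`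
  outside `m ^ 2 + (y, α)`.
For every ring `D` so obtained all finite projective `D[1/y]`-modules are free, and so are those
over `R[1/r]` for every `(R, r)` close to `(D, y)`. For example
`D = W⟦a, b, c, y⟧/(p - G(a, b, y) - α c)`, `W` a Cohen ring, `G` any power series without constant
term, `α` any product of powers of `y` and of power series in `a, b` of order one modulo `p`; so
e.g. `p = y ^ 2 + b ^ 2 + a c`.

Rings close to `(D, y)`. A pair `(R, r)`, `R` a noetherian local ring, is called close to a pair
`(S, s)` if there are homomorphisms `R → R₁ → S` such that `R/rR = R₁/rR₁`, every finitely presented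
`R₁`-algebra with an `R₁`-algebra homomorphism to `S` has one to `R₁` (the approximation property),
and `r` becomes a unit multiple of `s`. For instance `(R, r) = (S, s)`; or `R` excellent henselian
with completion `S`; or `R` excellent, `R/rR` henselian, `S` the completion of `R` (`R₁` is the
`r`-adic completion). Here the coefficients of two matrices `B`, `Y` with `Y B = 1`, `B Y = e` over
`R₁[1/r]`, `e` an idempotent matrix, are found by solving polynomial equations over `R₁` which have a
solution in `S`; and over `R[1/r]`, `e` an idempotent matrix over this ring, one approximates `B` in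
the `r`-adic topology by a matrix over `R[1/r]` and applies Nakayama's lemma.

Course of the proof, blow-up step. (1) Let `R = D⟦c⟧/(γ - c α)`, `q = m R`. Then `R/q = k⟦c⟧`, and
`R_q` is regular of dimension three with regular parameter `y`. By Gabber's theorem (elementary
proof in `Pool.Agent.Lib.QU62`) a finite projective `R[1/y]`-module `P` is free outside some `h` not
in `q`, and by Weierstrass `h` is a monic polynomial `H(c)` over `D`. As
`E = D[1/y][c]/(α c - γ) → R[1/y]` is an isomorphism modulo `H`, `P` comes from a module `P'` over
`E` which becomes free when `H(c)` is inverted. (2) Over `T = (1 + α D[1/y])⁻¹ D[1/y]` a theorem of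
Horrocks type holds for `E_T = T[c]/(α c - γ)`: `E_T / α = B[c]` with `B = (D/(α, γ))[1/y]` a
Euclidean domain, whose units lift to `T`; so the frame of `P'` near `c = ∞` can be changed into one
whose reduction modulo `α` is a monic multiple of a basis, and Nakayama's lemma over `T` gives a
basis of `P'_T`. (3) So `P'` is free outside some `s = 1 + α t`, and `D[1/y] → E` is an isomorphism
modulo `s`: `P'` is extended from `D[1/y]`. The dilatation step is that of our hand-in
`Dilatations`.
-/

set_option autoImplicit false

namespace Pool.Agent.Results.MP_3e5078_ag.BlowUps

open Pool.Agent.QU54.BH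

universe u

/-- Let `(D, y)` be in a tower of dilatations and blow-ups over `(L⟦v⟧, y)`, `dim L = 3`. Then `D`
is a complete regular local ring of dimension `4` with regular parameter `y`, and for every
noetherian local ring `R` and `r` in `R` such that `(R, r)` is close to `(D, y)`, finite projective
`R[1/r]`-modules are free. -/
theorem result :
    ∀ (D : Type u) [CommRing D] (y : D), BlowTower D y →
      (∃ _ : IsRegularLocalRing D,
        IsAdicComplete (IsLocalRing.maximalIdeal D) D ∧
        ringKrullDim D = ((4 : ℕ) : WithBot ℕ∞) ∧
        y ∈ IsLocalRing.maximalIdeal D ∧ y ∉ (IsLocalRing.maximalIdeal D) ^ 2) ∧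
      ∀ (R : Type u) [CommRing R] [IsNoetherianRing R] [IsLocalRing R] (r : R),
        Pool.Agent.QU54.Ap.Close R r D y →
        ∀ (P : Type u) [AddCommGroup P] [Module (Localization.Away r) P],
          Module.Finite (Localization.Away r) P → Module.Projective (Localization.Away r) P →
          Module.Free (Localization.Away r) P := by
  intro D _ y h
  obtain ⟨hreg, hc, hd, hy1, hy2, hPF⟩ := good4_of_tower D y h
  have hD : IsDomain D := BEH5.Reg.isDomain_of_regular 4 D hd
  have hy0 : y ≠ 0 := fun h0 => hy2 (by rw [h0]; exact Ideal.zero_mem _)
  exact ⟨⟨hreg, hc, hd, hy1, hy2⟩, fun R _ _ _ r hR P _ _ hf hp =>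
    hR.PF hy0 hy1 hPF P hf hp⟩

end Pool.Agent.Results.MP_3e5078_ag.BlowUps
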