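import Mathlib
import Pool.Agent.Lib.QU54.Dil
import Pool.Agent.Lib.QU54.ApB

/-!
# Quillen's question for dilatations `D⟦x, u_1, …, u_n⟧/(g - x y ^ e)`

Let `(D, y)` be a complete regular local ring with a regular parameter, `g` an element of the
maximal ideal `m` of `D` outside `m ^ 2 + (y)` and `e ≥ 1`. The dilatation
`D' = D⟦x⟧/(g - x y ^ e)` is again a complete regular local ring, of the same dimension, with
regular parameter `y`. Start with `L⟦v⟧`, `L` complete regular local of dimension `d` (of any
characteristic, ramified or not), `y` a regular parameter of `L`, and form dilatations at `y`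
successively (a tower). We show: for every ring `D'` of such a tower and every `n`, finite
projective `D'⟦u_1, …, u_n⟧[1/y]`-modules are free if `d ≤ 3`, and, for every `d`, those of rank at
least `d` are free; and the same for `R[1/r]`, `(R, r)` close to `(D'⟦u_1, …, u_n⟧, y)`. In mixed characteristic this gives, for `d = 3`,
`W⟦a, b, y, x, u_1, …, u_n⟧ / (p - G(a, b, y) - x y ^ e)`, with any `G` in `(a, b, y)`, for example
`p = a b + x y` in dimension four.

Rings close to `(D'⟦u⟧, y)`. A pair `(R, r)`, `R` a noetherian local ring, is called close to a pair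
`(S, s)` if there are homomorphisms `R → R₁ → S` such that `R/rR = R₁/rR₁`, every finitely presented
`R₁`-algebra with an `R₁`-algebra homomorphism to `S` has one to `R₁` (the approximation property),
and `r` becomes a unit multiple of `s`. For instance `(R, r) = (S, s)`; or `R` excellent henselian
with completion `S`; or `R` excellent, `R/rR` henselian, `S` the completion of `R` (`R₁` is the
`r`-adic completion). Here the coefficients of two matrices `B`, `Y` with `Y B = 1`, `B Y = e` over
`R₁[1/r]`, `e` an idempotent matrix, are found by solving polynomial equations over `R₁` which have a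
solution in `S`; and over `R[1/r]`, `e` an idempotent matrix over this ring, one approximates `B` in
the `r`-adic topology by a matrix over `R[1/r]` and applies Nakayama's lemma.

Course of the proof. Put `T = D⟦u⟧`, `R = D'⟦u⟧ = T⟦x⟧/(g - x y ^ e)`. (1) `q = m R` is a prime ideal
with `R/q = k⟦x, u⟧`, and `R_q` is regular of dimension `dim D - 1 = d` with regular parameter `y`.
By Gabber's theorem (elementary proof in `Pool.Agent.Lib.QU62`), respectively by Bass's stable
range, a finite projective `R[1/y]`-module `P` (of rank at least `d`) is free at `q`: there are `k`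
independent elements of `P` whose span contains `h P`, `h` outside `q`. (2) A change of variables
`u_j ↦ u_j + x ^ N_j`, which fixes `D` and `x`, makes `h` a unit times a Weierstrass polynomial
`H(x)` over `T`, of degree `r`. (3) In `R[1/y]` one has `x = g / y ^ e`; hence
`T[1/y]/(y ^ (e r) H(g / y ^ e)) = R[1/y]/(H)`, and the injective map `T[1/y] → R[1/y]` makes with
these quotients a patching square. So `P` is extended from a finite projective `T[1/y]`-module, and
this is free by induction along the tower. For `D = L⟦v⟧` the theorem is that of our hand-in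
`HighRank` (rank at least `d`) and that of `Pool.Agent.Lib.QU53` (`d ≤ 3`).
-/

set_option autoImplicit false

namespace Pool.Agent.Results.MP_3e5078_ag.Dilatations

open Pool.Agent.QU54

universe u

/-- Let `(D, y)` be in a tower of dilatations over `(L⟦v⟧, y)`, `dim L = d`, and let
`D' = D⟦x⟧/(g - x y ^ e)` be a further dilatation. Then `D'` is a complete regular local ring of
dimension `d + 1` with regular parameter `y`, and for every `n` and every noetherian local ring `R`
and `r` in `R` such that `(R, r)` is close to `(D'⟦u_1, …, u_n⟧, y)`, a finite projective module over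
`R[1/r]` is free if `d ≤ 3` or if its rank is at least `d`. -/
theorem result :
    ∀ (d : ℕ) (D : Type u) [CommRing D] [IsLocalRing D] (y g : D) (e : ℕ),
      DilatationTower d D y → 0 < e →
      g ∈ IsLocalRing.maximalIdeal D →
      g ∉ (IsLocalRing.maximalIdeal D) ^ 2 ⊔ Ideal.span {y} →
      ∀ (D' : Type u) [CommRing D'] (φ : Dilatation y g e ≃+* D') (y' : D'),
        φ (Ideal.Quotient.mk (dilatationIdeal y g e) (PowerSeries.C y)) = y' →
      (∃ _ : IsRegularLocalRing D',
        IsAdicComplete (IsLocalRing.maximalIdeal D') D' ∧
        ringKrullDim D' = ((d + 1 : ℕ) : WithBot ℕ∞) ∧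
        y' ∈ IsLocalRing.maximalIdeal D' ∧ y' ∉ (IsLocalRing.maximalIdeal D') ^ 2) ∧
      ∀ (n : ℕ) (R : Type u) [CommRing R] [IsNoetherianRing R] [IsLocalRing R] (r : R),
        Pool.Agent.QU54.Ap.Close R r (MvPowerSeries (Fin n) D') (MvPowerSeries.C y') →
        ∀ (P : Type u) [AddCommGroup P] [Module (Localization.Away r) P],
          Module.Finite (Localization.Away r) P → Module.Projective (Localization.Away r) P →
          (d ≤ 3 ∨ d ≤ Module.finrank (Localization.Away r) P) →
          Module.Free (Localization.Away r) P := by
  intro d D _ _ y g e h he hg hg2 D' _ φ y' hy'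
  subst hy'
  obtain ⟨hreg, hc, hd, hy1, hy2, hPF⟩ := good_of_tower d D' _
    (DilatationTower.iso _ _ φ _ (DilatationTower.step D y g e h he hg hg2))
  have hD : IsDomain D' := BEH5.Reg.isDomain_of_regular (d + 1) D' hd
  refine ⟨⟨hreg, hc, hd, hy1, hy2⟩, fun n R _ _ _ r hR P _ _ hf hp hr => ?_⟩
  have hy0 : φ (Ideal.Quotient.mk (dilatationIdeal y g e) (PowerSeries.C y)) ≠ 0 := fun h0 =>
    hy2 (by rw [h0]; exact Ideal.zero_mem _)
  rcases hr with h3 | hr
  · exact hR.PF_mv hy0 hy1 ((hPF n).2 h3) P hf hp
  · exact hR.PFr_mv hy0 hy1 (hPF n).1 P hf hp hr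

end Pool.Agent.Results.MP_3e5078_ag.Dilatations
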