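import Mathlib
import Pool.Agent.Lib.QU62.Rank
import Pool.Agent.Lib.QU54.ApB

/-!
# Projective modules of rank at least `dim S` over `S⟦z_1, …, z_n⟧[1/s]`, `s ∈ S`

For every complete regular local ring `S` of dimension `d`, of any characteristic and ramified or
not, every `n` and every nonzero `s ∈ S`, every finite projective module of rank at least `d` over
`S⟦z_1, …, z_n⟧[1/s]` is free, and so are those over `A[1/r]` for every `(A, r)` close to
`(S⟦z_1, …, z_n⟧, s)`. The bound does not depend on `n`.

Rings close to `(S⟦z⟧, s)`. A pair `(R, r)`, `R` a noetherian local ring, is called close to a pair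
`(S', s)` if there are homomorphisms `R → R₁ → S'` such that `R/rR = R₁/rR₁`, every finitely presented
`R₁`-algebra with an `R₁`-algebra homomorphism to `S'` has one to `R₁` (the approximation property),
and `r` becomes a unit multiple of `s`. For instance `(R, r) = (S', s)`; or `R` excellent henselian
with completion `S'`; or `R` excellent, `R/rR` henselian, `S'` the completion of `R` (`R₁` is the
`r`-adic completion). Here the coefficients of two matrices `B`, `Y` with `Y B = 1`, `B Y = e` over
`R₁[1/r]`, `e` an idempotent matrix, are found by solving polynomial equations over `R₁` which have a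
solution in `S'`; and over `R[1/r]`, `e` an idempotent matrix over this ring, one approximates `B` in
the `r`-adic topology by a matrix over `R[1/r]` and applies Nakayama's lemma.

Course of the proof for `r = s ∈ S`. Put `R = S⟦z_1, …, z_n⟧`, `q = m_S R`, `K = R_q`. (1) `K` is a regular local
ring of dimension `d`; if `r` is not a unit, `K[1/r]` has dimension at most `d - 1`, its finite
projective modules are stably free (finite free resolutions over `K`), and those of rank at least
`d` are free (Bass's stable range). (2) Hence a finite projective `R[1/r]`-module `P` of rank
`k ≥ d` has `k` linearly independent elements whose span contains `f P`, with `f ∉ q`. (3) After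
a change of variables `f` is a unit times a monic polynomial in `z_n` over
`C = S⟦z_1, …, z_(n-1)⟧`; since `r ∈ C`, `P` is extended from `C[1/r][z_n]` (patching along `f`),
and monic inversion over `C[1/r]` shows that it is free.
-/

set_option autoImplicit false

namespace Pool.Agent.Results.MP_3e5078_ag.HighRank

universe u

/-- For every complete regular local ring `S` of dimension `d`, every `n`, every `s ≠ 0` in `S` and
every noetherian local ring `R` and `r` in `R` such that `(R, r)` is close to
`(S⟦z_1, …, z_n⟧, s)`, every finite projective `R[1/r]`-module of rank at least `d` is free. -/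
theorem result :
    ∀ (S : Type u) [CommRing S] [IsRegularLocalRing S]
      [IsAdicComplete (IsLocalRing.maximalIdeal S) S] (d : ℕ),
      ringKrullDim S = d →
      ∀ (n : ℕ) (s : S), s ≠ 0 →
      ∀ (R : Type u) [CommRing R] [IsNoetherianRing R] [IsLocalRing R] (r : R),
        Pool.Agent.QU54.Ap.Close R r (MvPowerSeries (Fin n) S) (MvPowerSeries.C s) →
        ∀ (P : Type u) [AddCommGroup P] [Module (Localization.Away r) P],
          Module.Finite (Localization.Away r) P → Module.Projective (Localization.Away r) P →
          d ≤ Module.finrank (Localization.Away r) P → Module.Free (Localization.Away r) P := by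
  intro S _ _ _ d hd n s hs R _ _ _ r hR P _ _ hf hp hr
  have hS : IsDomain S := BEH5.Reg.isDomain_of_regular d S hd
  by_cases hu : IsUnit s
  · exact Pool.Agent.QU62.pf_of_isUnit r (hR.isUnit (hu.map MvPowerSeries.C)) P hf hp
  · exact hR.PFr_mv hs ((IsLocalRing.mem_maximalIdeal s).2 hu)
      (fun Q _ _ _ _ h => Pool.Agent.QU62.rank_ge_dim hd n s hs Q h) P hf hp hr

end Pool.Agent.Results.MP_3e5078_ag.HighRank
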