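import Mathlib
import Pool.Agent.Lib.QU54.NodeT
import Pool.Agent.Lib.QU54.ApB

/-!
# Quillen's question for power series over nodes and their dilatations

Let `L` be a complete regular local ring of dimension three (of any characteristic, ramified or
not) and `y` a regular parameter of `L`. Start with the pairs
* `(L⟦a⟧⟦c⟧/(γ - c h), y)`, `h = (a - β_1) ⋯ (a - β_m)`, `m ≥ 0`, the `β_i` in the maximal ideal of `L`
  (repetitions allowed), `γ` any element of the maximal ideal `m` of `L⟦a⟧` outside
  `m ^ 2 + (y, a - β_i)` for all `i`;
* `(R, φ y)`, `R` complete regular local of dimension four, `φ : L → R` a homomorphism with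
  `R = φ(L) + m_R`, such that there are `a`, `c` in `R` and `γ` in `m_L` outside `m_L ^ 2 + (y)` with
  `m_R = φ(m_L) R + (a, c)` and `φ(γ) ≡ a c` modulo `m_R ^ 3`;

and form dilatations `D⟦x⟧/(g - x y ^ e)` successively, `e ≥ 1`, `g` in the maximal ideal `m` of `D`
outside `m ^ 2 + (y)`. For every ring `D` so obtained and every `n`, finite projective
`D⟦u_1, …, u_n⟧[1/y]`-modules are free, and so are those over `R[1/r]` for every `(R, r)` close to
`(D⟦u_1, …, u_n⟧, y)`.

Rings close to `(D⟦u⟧, y)`. A pair `(R, r)`, `R` a noetherian local ring, is called close to a pair
`(S, s)` if there are homomorphisms `R → R₁ → S` such that `R/rR = R₁/rR₁`, every finitely presented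
`R₁`-algebra with an `R₁`-algebra homomorphism to `S` has one to `R₁` (the approximation property),
and `r` becomes a unit multiple of `s`. For instance `(R, r) = (S, s)`; or `R` excellent henselian
with completion `S`; or `R` excellent, `R/rR` henselian, `S` the completion of `R` (`R₁` is the
`r`-adic completion). Here the coefficients of two matrices `B`, `Y` with `Y B = 1`, `B Y = e` over
`R₁[1/r]`, `e` an idempotent matrix, are found by solving polynomial equations over `R₁` which have a
solution in `S`; and over `R[1/r]`, `e` an idempotent matrix over this ring, one approximates `B` in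
the `r`-adic topology by a matrix over `R[1/r]` and applies Nakayama's lemma.

Examples. With `L = W⟦z, y⟧`, `W` a coefficient ring of `R`, the second kind contains every complete
ramified `R` of dimension four with a regular system of parameters `y, z, a, c` such that
`p ≡ a c + q(z, y)` modulo `m_R ^ 3`, `q` a quadratic form: take `γ = p - q(z, y)`. This means that
the quadratic part of `p` modulo `y` splits off a hyperbolic plane. The first kind contains
`W⟦a, b, c, y⟧/(p - G(a, b, y) - c h)`, `h` a finite product of factors `a - β_i(b, y)`, `G` and the
`β_i` without constant term, and with dilatations one can have in addition a power of `y` in `h`.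

Course of the proof for `R = D⟦u⟧`, `D = L⟦a⟧⟦c⟧/(γ - c h)`, `P` a finite projective `R[1/y]`-module.
(1) `q = m R`, `m` the maximal ideal of `L⟦a⟧`, is a prime ideal with `R/q = k⟦c, u⟧`, and `R_q` is
regular of dimension three with regular parameter `y`. By Gabber's theorem (elementary proof in
`Pool.Agent.Lib.QU62`) `P` is free outside some element not in `q`; after a change of the variables
`u`, which keeps `c`, this is a monic polynomial in `c` over `L⟦a, u⟧`, and `P` comes by patching
from a module `P'` over `E = L⟦a, u⟧[1/y][c]/(h c - γ)` which is free outside a monic polynomial in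
`c`. (2) `h` is not in the prime ideal `m_L L⟦a, u⟧`; so, again by Gabber's theorem, `P'` is free
outside some element of `L⟦a, u⟧` not in this ideal; after a change of the variables `u`, which
keeps `a`, this is a monic polynomial in `a` over `A = L⟦u⟧`. (3) Let `𝔭 = m_L A` and let `T` be
`A⟦a⟧` with `y` and the elements of `A` outside `𝔭` inverted. Over `T` the module `P'` is free. For
`m = 1` this is seen as follows: `T/(a - β, γ)` is a Euclidean domain, the ring
`(A/γ(β))_𝔭[1/y]`, whose units lift to `A_𝔭[1/y]`; so the frame of `P'` near `c = ∞` can be changed
into one which agrees modulo `a - β` with a monic multiple of a basis; Nakayama's lemma over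
`(1 + (a - β) T)⁻¹ T` gives a basis of `P'` near `a = β`, and by patching `P'` comes from a
module over `T`; the latter is free outside a monic polynomial in `a`, hence, by patching, comes
from `A_𝔭[1/y][a]`, and is free by monic inversion (Quillen, Suslin). For `m ≥ 2` the factors of `h`
are removed one after another: `h = (a - β) h'` and `P'` comes from `T[c']/(h' c' - γ)`,
`c' = (a - β) c`, where it is free outside the monic polynomial `(a - β) ^ r H(c' / (a - β))` in
`c'`, if it was free outside `H(c)`, up to powers. (4) So `P'` and then `P` are free outside some
element of `A` not in `𝔭`. After a change of the variables `u` this is a unit times a monic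
polynomial in `u_1` over `D⟦u_2, …, u_n⟧`, and `P` is free by monic inversion. The dilatations are
treated as in our hand-in `Dilatations`. The rings of the second kind are of the first kind, with
`m = 1`: by successive approximation there are `a'`, `c'` in `R` and `γ'` in `L` with
`φ(γ') = a' c'`.
-/

set_option autoImplicit false

namespace Pool.Agent.Results.MP_3e5078_ag.Nodes

open Pool.Agent.QU54.BH

universe u

/-- Let `(D, y)` be in the class generated by the chain nodes `(L⟦a⟧⟦c⟧/(γ - c h), y)`, `dim L = 3`,
the rings of nodal type and dilatations. Then `D` is a complete regular local ring of dimension `4`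
with regular parameter `y`, and for every `n` and every noetherian local ring `R` and `r` in `R`
such that `(R, r)` is close to `(D⟦u_1, …, u_n⟧, y)`, finite projective `R[1/r]`-modules are free. -/
theorem result :
    ∀ (D : Type u) [CommRing D] (y : D), NodeTower D y →
      (∃ _ : IsRegularLocalRing D,
        IsAdicComplete (IsLocalRing.maximalIdeal D) D ∧
        ringKrullDim D = ((4 : ℕ) : WithBot ℕ∞) ∧
        y ∈ IsLocalRing.maximalIdeal D ∧ y ∉ (IsLocalRing.maximalIdeal D) ^ 2) ∧
      ∀ (n : ℕ) (R : Type u) [CommRing R] [IsNoetherianRing R] [IsLocalRing R] (r : R),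
        Pool.Agent.QU54.Ap.Close R r (MvPowerSeries (Fin n) D) (MvPowerSeries.C y) →
        ∀ (P : Type u) [AddCommGroup P] [Module (Localization.Away r) P],
          Module.Finite (Localization.Away r) P → Module.Projective (Localization.Away r) P →
          Module.Free (Localization.Away r) P := by
  intro D _ y h
  obtain ⟨hreg, hc, hd, hy1, hy2, hPF⟩ := good_of_nodeTower D y h
  have hD : IsDomain D := BEH5.Reg.isDomain_of_regular 4 D hd
  have hy0 : y ≠ 0 := fun h0 => hy2 (by rw [h0]; exact Ideal.zero_mem _)
  exact ⟨⟨hreg, hc, hd, hy1, hy2⟩, fun n R _ _ _ r hR P _ _ hf hp =>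
    hR.PF_mv hy0 hy1 ((hPF n).2 le_rfl) P hf hp⟩

end Pool.Agent.Results.MP_3e5078_ag.Nodes
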